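import Pool.Agent.helper48.TH.Spec3

/-!
# Row `tha:DRR` (MP_f42afa_pr)
-/

set_option autoImplicit false

namespace TP.TW

open DP MeasureTheory Finset

private theorem DRR_prob : IsProbabilityMeasure P1 := by unfold P1; infer_instance

private theorem DRR_mono {F G : Set (V → Bool)} (h : F ⊆ G) : Pr F ≤ Pr G := by
  have := DRR_prob
  exact measureReal_mono h

private theorem DRR_nonneg (F : Set (V → Bool)) : 0 ≤ Pr F := measureReal_nonneg

private theorem DRR_le_one (F : Set (V → Bool)) : Pr F ≤ 1 := by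
  have := DRR_prob
  exact measureReal_le_one

private theorem DRR_card {α : Type} [Fintype α] (P : α → Prop) (i1 i2 : DecidablePred P) :
    #(@Finset.filter α P i1 univ) = #(@Finset.filter α P i2 univ) := by
  have h : i1 = i2 := Subsingleton.elim _ _
  subst h
  rfl

/-- `S i` depends only on the coins in `Ω` -/
private theorem DRR_dep {Ω : Finset V} {S : ℕ → (V → Bool) → Finset V} (h : RV Ω S) :
    ∀ (i : ℕ) (β β' : V → Bool), (∀ v ∈ Ω, β' v = β v) → S i β' = S i β := by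
  intro i β β' hb
  rcases i with _ | i
  · rw [h.2.1, h.2.1]
  · exact (h.2.2 i β).2.2 β' fun v hv => hb v ((h.2.2 i β).2.1 hv)

private theorem DRR_incr {Ω : Finset V} {S : ℕ → (V → Bool) → Finset V} (h : RV Ω S) (β : V → Bool) :
    ∀ i k : ℕ, i ≤ k → S i β ⊆ S k β := by
  intro i k hik
  induction k, hik using Nat.le_induction with
  | base => exact Subset.refl _
  | succ k _ ih => exact ih.trans (h.2.2 k β).1

/-- the coins extended by `false` -/
private noncomputable def DRR_ext {Ω' : Finset V} {m : ℕ} (e : Fin m ≃ {v // v ∈ Ω'})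
    (x : Fin m → Bool) (v : V) : Bool :=
  if h : v ∈ Ω' then x (e.symm ⟨v, h⟩) else false

private theorem DRR_ext_coe {Ω' : Finset V} {m : ℕ} (e : Fin m ≃ {v // v ∈ Ω'})
    (x : Fin m → Bool) (v : V) (h : v ∈ Ω') : DRR_ext e x v = x (e.symm ⟨v, h⟩) := dif_pos h

private theorem DRR_ext_beta {Ω' : Finset V} {m : ℕ} (e : Fin m ≃ {v // v ∈ Ω'})
    (β : V → Bool) (v : V) (h : v ∈ Ω') :
    DRR_ext e (fun u => β (e u : V)) v = β v := by
  rw [DRR_ext_coe e _ v h, Equiv.apply_symm_apply]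

/-- the shifted configuration -/
private def DRR_sh (τ : V) (β : V → Bool) : V → Bool := fun v => β (v.1 + τ.1, v.2 + τ.2)

/-- the seen coins -/
private noncomputable def DRR_S {Ω' : Finset V} {m : ℕ} (e : Fin m ≃ {v // v ∈ Ω'})
    (S : ℕ → (V → Bool) → Finset V) (j : ℕ) (τ : V) (i : ℕ) (x : Fin m → Bool) : Finset (Fin m) :=
  univ.filter fun u => (((e u : V).1 - τ.1, (e u : V).2 - τ.2) : V) ∈
    S (min i (j + 1)) (DRR_sh τ (DRR_ext e x))

private theorem DRR_rounds {Ω Ω' : Finset V} {m : ℕ} (e : Fin m ≃ {v // v ∈ Ω'})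
    {S : ℕ → (V → Bool) → Finset V} (h : RV Ω S) (j : ℕ) (τ : V)
    (hτ : ∀ v ∈ Ω, ((v.1 + τ.1, v.2 + τ.2) : V) ∈ Ω') : EN.Rounds (DRR_S e S j τ) := by
  refine ⟨fun x => ?_, fun i x => ⟨?_, fun y hy => ?_⟩⟩
  · unfold DRR_S
    rw [filter_eq_empty_iff]
    intro u _ hu
    rw [Nat.zero_min, h.2.1] at hu
    exact absurd hu (notMem_empty _)
  · intro u hu
    unfold DRR_S at hu ⊢
    rw [mem_filter] at hu ⊢
    exact ⟨hu.1, DRR_incr h _ _ _ (by omega) hu.2⟩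
  · have key : S (min (i + 1) (j + 1)) (DRR_sh τ (DRR_ext e y)) =
        S (min (i + 1) (j + 1)) (DRR_sh τ (DRR_ext e x)) := by
      have e1 : min (i + 1) (j + 1) = min i j + 1 := by omega
      rw [e1]
      refine (h.2.2 (min i j) (DRR_sh τ (DRR_ext e x))).2.2 _ fun v hv => ?_
      have hvΩ : v ∈ Ω := (h.2.2 (min i j) (DRR_sh τ (DRR_ext e x))).2.1 hv
      have hv' := hτ v hvΩ
      unfold DRR_sh
      rw [DRR_ext_coe e _ _ hv', DRR_ext_coe e _ _ hv']
      apply hy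
      unfold DRR_S
      rw [mem_filter]
      refine ⟨mem_univ _, ?_⟩
      rw [Equiv.apply_symm_apply]
      have e2 : ((v.1 + τ.1 - τ.1, v.2 + τ.2 - τ.2) : V) = v := by
        ext <;> simp
      simp only [e2]
      exact DRR_incr h _ _ _ (by omega) hv
    unfold DRR_S
    rw [key]

open Classical in
private theorem DRR_main {j : ℕ} {C : ℝ} (h2 : PRN_stmt) (h3 : SHP_stmt)
    (hC : ∀ (m : ℕ) (κ : Type) (T : Finset κ) (S : κ → ℕ → EN.Om m → Finset (Fin m))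
      (Λ : Finset (Fin m)) (z : Fin m) (N : ℝ), (∀ τ ∈ T, EN.Rounds (S τ)) →
      (∀ i : ℕ, ∀ v ∈ insert z Λ, ∑ τ ∈ T, (#{x : EN.Om m | v ∈ S τ i x} : ℝ) / 2 ^ m ≤ N) →
      ∀ (Q : EN.Om m → ℝ) (L : ℝ), EN.Law Q → (∀ x y : EN.Om m, (∀ u ∈ Λ, x u = y u) → Q x = Q y) →
      0 ≤ L → (∀ x, Q x ≤ Real.exp L / 2 ^ m) →
      ∀ v ∈ insert z Λ, ∑ τ ∈ T, ∑ x with v ∈ S τ (j + 1) x, Q x ≤
        C * N * (L + Real.log (#Λ + 3)) ^ j) (hC0 : 0 < C)
    {Ω : Finset V} {S : ℕ → (V → Bool) → Finset V} (h : RV Ω S) :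
    DEC (S (j + 1)) (fun v => Pr {β | v ∈ S (j + 1) β}) j C := by
  intro T U Λ z E hE hU
  have hw0 : ∀ v, 0 ≤ Pr {β | v ∈ S (j + 1) β} := fun v => DRR_nonneg _
  rcases (DRR_nonneg E).eq_or_lt with h0 | hpos
  · rw [← h0]
    simp only [mul_zero, zero_mul]
    refine (sum_nonpos fun τ _ => ?_)
    refine (DRR_mono Set.inter_subset_left).trans (le_of_eq h0.symm)
  -- the finite set of coins
  set Ω' : Finset V := insert z (Λ ∪ T.biUnion fun τ => Ω.image fun v => ((v.1 + τ.1, v.2 + τ.2) : V))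
    with hΩ'
  set m : ℕ := #Ω' with hm
  let e : Fin m ≃ {v // v ∈ Ω'} := Ω'.equivFin.symm
  have hinj : Function.Injective fun u : Fin m => ((e u : {v // v ∈ Ω'}) : V) :=
    Subtype.val_injective.comp e.injective
  have hz' : z ∈ Ω' := mem_insert_self _ _
  have hΛ' : ∀ v ∈ Λ, v ∈ Ω' := fun v hv => mem_insert_of_mem (mem_union_left _ hv)
  have hτ' : ∀ τ ∈ T, ∀ v ∈ Ω, ((v.1 + τ.1, v.2 + τ.2) : V) ∈ Ω' := fun τ hτ v hv =>
    mem_insert_of_mem (mem_union_right _ (mem_biUnion.2 ⟨τ, hτ, mem_image.2 ⟨v, hv, rfl⟩⟩))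
  set Λ' : Finset (Fin m) := univ.filter fun u => (e u : V) ∈ Λ with hΛ'def
  set z' : Fin m := e.symm ⟨z, hz'⟩ with hz'def
  have hez : (e z' : V) = z := by rw [hz'def, Equiv.apply_symm_apply]
  -- events in coordinates
  have hPE : ∀ β : V → Bool, (DRR_ext e (fun u => β (e u : V)) ∈ E ↔ β ∈ E) := fun β =>
    hE _ _ fun v hv => DRR_ext_beta e β v (hΛ' v hv)
  have hPS : ∀ τ ∈ T, ∀ (i : ℕ) (β : V → Bool),
      S i (DRR_sh τ (DRR_ext e (fun u => β (e u : V)))) = S i (DRR_sh τ β) := fun τ hτ i β =>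
    DRR_dep h i _ _ fun v hv => DRR_ext_beta e β _ (hτ' τ hτ v hv)
  have hcE : Pr E = (#{x : Fin m → Bool | DRR_ext e x ∈ E} : ℝ) / 2 ^ m := by
    rw [← h2 m (fun u => (e u : V)) hinj (fun x => DRR_ext e x ∈ E)]
    congr 1
    ext β
    exact (hPE β).symm
  have hcS : ∀ τ ∈ T, ∀ (i : ℕ) (v : Fin m),
      Pr {β | (((e v : V).1 - τ.1, (e v : V).2 - τ.2) : V) ∈ S (min i (j + 1)) (DRR_sh τ β)} =
        (#{x : EN.Om m | v ∈ DRR_S e S j τ i x} : ℝ) / 2 ^ m := by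
    intro τ hτ i v
    have hh := h2 m (fun u => (e u : V)) hinj (fun x => v ∈ DRR_S e S j τ i x)
    refine (Eq.trans ?_ hh).trans ?_
    · congr 1
      ext β
      simp only [Set.mem_setOf_eq, DRR_S, mem_filter, mem_univ, true_and]
      rw [hPS τ hτ]
    · exact congrArg (fun t : ℕ => (t : ℝ) / 2 ^ m) (DRR_card _ _ _)
  have hcES : ∀ τ ∈ T,
      Pr (E ∩ {β | ((z.1 - τ.1, z.2 - τ.2) : V) ∈ S (j + 1) (DRR_sh τ β)}) =
        (#{x : EN.Om m | DRR_ext e x ∈ E ∧ z' ∈ DRR_S e S j τ (j + 1) x} : ℝ) / 2 ^ m := by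
    intro τ hτ
    have hh := h2 m (fun u => (e u : V)) hinj
      (fun x => DRR_ext e x ∈ E ∧ z' ∈ DRR_S e S j τ (j + 1) x)
    refine (Eq.trans ?_ hh).trans ?_
    · congr 1
      ext β
      simp only [Set.mem_inter_iff, Set.mem_setOf_eq, DRR_S, mem_filter, mem_univ, true_and,
        min_self, hez]
      rw [hPS τ hτ, hPE]
    · exact congrArg (fun t : ℕ => (t : ℝ) / 2 ^ m) (DRR_card _ _ _)
  -- the entropy theorem
  set M : ℝ := (#{x : Fin m → Bool | DRR_ext e x ∈ E} : ℝ) with hM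
  have h2m : (0 : ℝ) < 2 ^ m := by positivity
  have hMpos : 0 < M := by
    rw [hcE] at hpos
    exact (div_pos_iff_of_pos_right h2m).1 hpos
  let Q : EN.Om m → ℝ := fun x => if DRR_ext e x ∈ E then 1 / M else 0
  have hlaw : EN.Law Q := by
    refine ⟨fun x => ?_, ?_⟩
    · simp only [Q]
      split_ifs
      · positivity
      · exact le_rfl
    · simp only [Q]
      rw [← sum_filter, sum_const, nsmul_eq_mul, ← hM]
      exact mul_one_div_cancel hMpos.ne'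
  have hQdep : ∀ x y : EN.Om m, (∀ u ∈ Λ', x u = y u) → Q x = Q y := by
    intro x y hxy
    have : DRR_ext e x ∈ E ↔ DRR_ext e y ∈ E := by
      refine hE _ _ fun v hv => ?_
      rw [DRR_ext_coe e x v (hΛ' v hv), DRR_ext_coe e y v (hΛ' v hv)]
      apply hxy
      rw [hΛ'def, mem_filter]
      refine ⟨mem_univ _, ?_⟩
      rw [Equiv.apply_symm_apply]
      exact hv
    simp only [Q, this]
  have hL0 : 0 ≤ Real.log (1 / Pr E) :=
    Real.log_nonneg (by rw [le_div_iff₀ hpos, one_mul]; exact DRR_le_one E)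
  have hexp : Real.exp (Real.log (1 / Pr E)) = 1 / Pr E := Real.exp_log (by positivity)
  have hQle : ∀ x, Q x ≤ Real.exp (Real.log (1 / Pr E)) / 2 ^ m := by
    intro x
    have h1 : Real.exp (Real.log (1 / Pr E)) / 2 ^ m = 1 / M := by
      rw [hexp, hcE]
      field_simp
    rw [h1]
    simp only [Q]
    split_ifs
    · exact le_rfl
    · positivity
  have hN : ∀ i : ℕ, ∀ v ∈ insert z' Λ',
      ∑ τ ∈ T, (#{x : EN.Om m | v ∈ DRR_S e S j τ i x} : ℝ) / 2 ^ m ≤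
        ∑ v ∈ U, Pr {β | v ∈ S (j + 1) β} := by
    intro i v hv
    have hev : (e v : V) ∈ insert z Λ := by
      rcases mem_insert.1 hv with rfl | hv
      · rw [hez]
        exact mem_insert_self _ _
      · exact mem_insert_of_mem (mem_filter.1 hv).2
    have h4 : ∀ τ ∈ T, (#{x : EN.Om m | v ∈ DRR_S e S j τ i x} : ℝ) / 2 ^ m ≤
        Pr {β | (((e v : V).1 - τ.1, (e v : V).2 - τ.2) : V) ∈ S (j + 1) β} := by
      intro τ hτ
      rw [← hcS τ hτ i v]
      have h5 := h3 {β | (((e v : V).1 - τ.1, (e v : V).2 - τ.2) : V) ∈ S (min i (j + 1)) β} Ω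
        (fun b b' hb => by
          simp only [Set.mem_setOf_eq]
          rw [DRR_dep h _ b' b hb]) τ.1 τ.2
      refine (le_of_eq h5).trans ?_
      exact DRR_mono fun β hβ => DRR_incr h β _ _ (by omega) hβ
    refine (sum_le_sum h4).trans ?_
    have hinj2 : Set.InjOn (fun τ : V => (((e v : V).1 - τ.1, (e v : V).2 - τ.2) : V)) T := by
      intro τ _ τ' _ hh
      have a1 := congrArg Prod.fst hh
      have a2 := congrArg Prod.snd hh
      simp only at a1 a2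
      exact Prod.ext (by omega) (by omega)
    have h6 := sum_image (f := fun u : V => Pr {β | u ∈ S (j + 1) β}) (s := T)
      (g := fun τ : V => (((e v : V).1 - τ.1, (e v : V).2 - τ.2) : V)) hinj2
    rw [← h6]
    refine sum_le_sum_of_subset_of_nonneg ?_ fun u _ _ => hw0 u
    intro u hu
    obtain ⟨τ, hτ, rfl⟩ := mem_image.1 hu
    exact hU _ hev τ hτ
  have hent := hC m V T (DRR_S e S j) Λ' z' (∑ v ∈ U, Pr {β | v ∈ S (j + 1) β})
    (fun τ hτ => DRR_rounds e h j τ (hτ' τ hτ)) hN Q (Real.log (1 / Pr E)) hlaw hQdep hL0 hQle z'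
    (mem_insert_self _ _)
  -- the left side
  have hleft : ∀ τ ∈ T, Pr (E ∩ {β | ((z.1 - τ.1, z.2 - τ.2) : V) ∈ S (j + 1) (DRR_sh τ β)}) =
      Pr E * ∑ x with z' ∈ DRR_S e S j τ (j + 1) x, Q x := by
    intro τ hτ
    rw [hcES τ hτ, hcE]
    have h7 : ∑ x with z' ∈ DRR_S e S j τ (j + 1) x, Q x =
        (#{x : EN.Om m | DRR_ext e x ∈ E ∧ z' ∈ DRR_S e S j τ (j + 1) x} : ℝ) * (1 / M) := by
      simp only [Q]
      rw [← sum_filter, sum_const, nsmul_eq_mul, filter_filter]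
      congr 3
      ext x
      simp only [mem_filter, mem_univ, true_and, and_comm]
    rw [h7]
    field_simp
  have hcard : #Λ' ≤ #Λ := by
    refine card_le_card_of_injOn (fun u => (e u : V)) (fun u hu => ?_) hinj.injOn
    exact (mem_filter.1 hu).2
  have hlog : Real.log (#Λ' + 3) ≤ Real.log (#T + #Λ + 3) := by
    refine Real.log_le_log (by positivity) ?_
    have : (#Λ' : ℝ) ≤ #Λ := by exact_mod_cast hcard
    have h8 : (0 : ℝ) ≤ #T := by positivity
    linarith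
  have hlog0 : 0 ≤ Real.log ((#Λ' : ℝ) + 3) := Real.log_nonneg (by
    have : (0 : ℝ) ≤ #Λ' := by positivity
    linarith)
  have hsum0 : 0 ≤ ∑ v ∈ U, Pr {β | v ∈ S (j + 1) β} := sum_nonneg fun v _ => hw0 v
  calc ∑ τ ∈ T, Pr (E ∩ {β | (z.1 - τ.1, z.2 - τ.2) ∈ S (j + 1) (fun v => β (v.1 + τ.1, v.2 + τ.2))})
      = ∑ τ ∈ T, Pr E * ∑ x with z' ∈ DRR_S e S j τ (j + 1) x, Q x := sum_congr rfl hleft
    _ = Pr E * ∑ τ ∈ T, ∑ x with z' ∈ DRR_S e S j τ (j + 1) x, Q x := by rw [mul_sum]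
    _ ≤ Pr E * (C * (∑ v ∈ U, Pr {β | v ∈ S (j + 1) β}) *
          (Real.log (1 / Pr E) + Real.log (#Λ' + 3)) ^ j) := mul_le_mul_of_nonneg_left hent hpos.le
    _ ≤ Pr E * (C * (∑ v ∈ U, Pr {β | v ∈ S (j + 1) β}) *
          (Real.log (1 / Pr E) + Real.log (#T + #Λ + 3)) ^ j) := by
        refine mul_le_mul_of_nonneg_left ?_ hpos.le
        refine mul_le_mul_of_nonneg_left ?_ (mul_nonneg hC0.le hsum0)
        exact pow_le_pow_left₀ (by linarith) (by linarith) j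
    _ = C * Pr E * (Real.log (1 / Pr E) + Real.log (#T + #Λ + 3)) ^ j *
          ∑ v ∈ U, Pr {β | v ∈ S (j + 1) β} := by ring

theorem DRR (h1 : EN.ENT_stmt) (h2 : PRN_stmt) (h3 : SHP_stmt) : DRR_stmt := by
  intro j
  obtain ⟨C, hC0, hC⟩ := h1 j
  refine ⟨C, hC0, fun Ω S h => ⟨h.1, fun β => (h.2.2 (j + 1) β).2.1, ⟨Ω, fun β β' hb =>
    DRR_dep h (j + 1) β' β hb⟩, fun v => DRR_nonneg _, fun v hv => ?_, hC0.le,
    DRR_main h2 h3 (fun m κ T S Λ z N a1 a2 Q L a3 a4 a5 a6 => hC m κ T S Λ z N a1 a2 Q L a3 a4 a5 a6)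
      hC0 h⟩⟩
  have : {β : V → Bool | v ∈ S (j + 1) β} = ∅ := by
    ext β
    simp only [Set.mem_setOf_eq, Set.mem_empty_iff_false, iff_false]
    exact fun hh => hv ((h.2.2 (j + 1) β).2.1 hh)
  show Pr {β : V → Bool | v ∈ S (j + 1) β} = 0
  rw [this]
  unfold Pr
  exact measureReal_empty

end TP.TW
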