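import Pool.Agent.helper9.TH.Spec

/-! Row S9 of the Thompson file of helper9. -/

namespace Pool.Agent.helper6.TH

open Pool.Agent.helper9.TH

universe u

theorem card_mul_relIndex' {G : Type u} [Group G] {H K : Subgroup G} (h : H ≤ K) :
    Nat.card H * H.relIndex K = Nat.card K := by
  have := Subgroup.relIndex_mul_relIndex (⊥ : Subgroup G) H K bot_le h
  rwa [Subgroup.relIndex_bot_left, Subgroup.relIndex_bot_left] at this

theorem card_sup_mul {G : Type u} [Group G] [Finite G] (H V : Subgroup G) [V.Normal] :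
    Nat.card (H ⊔ V : Subgroup G) * Nat.card (H ⊓ V : Subgroup G) =
      Nat.card H * Nat.card V := by
  have h1 := card_mul_relIndex' (le_sup_right : V ≤ H ⊔ V)
  have h2 := card_mul_relIndex' (inf_le_left : H ⊓ V ≤ H)
  rw [Subgroup.relIndex_sup_right] at h1
  rw [Subgroup.inf_relIndex_left] at h2
  rw [← h1, ← h2]
  ring

theorem S9 (hJa : JBa_stmt.{u}) (hJb : JBb_stmt.{u}) (hPB : PBa_stmt.{u}) : S9_stmt.{u} := by
  intro p G _ _ P U V hp hU hV hP hUP hVU hEV hcom hPN hnPN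
  obtain ⟨-, -, -, -, hJ5, -⟩ := hJa
  obtain ⟨-, -, hJ3⟩ := hJb
  obtain ⟨-, hPB2, -⟩ := hPB
  have hex : ∃ A : Subgroup G, MaxEA p P A ∧ ¬ A ≤ U := by
    by_contra hcon
    have hall : ∀ A : Subgroup G, MaxEA p P A → A ≤ U := by
      intro A hA
      by_contra hAU
      exact hcon ⟨A, hA, hAU⟩
    have hJU : JJ p P ≤ U := sSup_le fun A hA => hall A hA
    have hEq : JJ p U = JJ p P := hJ3 p G P U hJU hUP
    have hN := hJ5 p G U
    rw [Subgroup.normalizer_eq_top_iff.mpr hU, hEq] at hN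
    have hTop : Subgroup.normalizer (JJ p P : Set G) = ⊤ := top_le_iff.mp hN
    apply hnPN
    refine hPB2 p (Subgroup.normalizer (JJ p P : Set G)) G hp
      (Subgroup.subtype _) ?_ hPN
    intro g
    refine ⟨⟨g, ?_⟩, rfl⟩
    rw [hTop]
    exact Subgroup.mem_top g
  obtain ⟨A, ⟨hAP, hEA, hmax⟩, hAU⟩ := hex
  refine ⟨A, hAP, hEA, hAU, ?_⟩
  have := hV
  have hBP : (A ⊓ U) ⊔ V ≤ P := sup_le (inf_le_right.trans hUP) (hVU.trans hUP)
  have hdec : ∀ x ∈ (A ⊓ U) ⊔ V, ∃ a ∈ A ⊓ U, ∃ v ∈ V, a * v = x := by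
    intro x hx
    exact Subgroup.mem_sup_of_normal_right.mp hx
  have hEB : EA p ((A ⊓ U) ⊔ V) := by
    constructor
    · intro x hx y hy
      obtain ⟨a, ha, v, hv, rfl⟩ := hdec x hx
      obtain ⟨b, hb, w, hw, rfl⟩ := hdec y hy
      have h1 : v * b = b * v := hcom v hv b hb.2
      have h2 : w * a = a * w := hcom w hw a ha.2
      have h3 : a * b = b * a := hEA.1 a ha.1 b hb.1
      have h4 : v * w = w * v := hEV.1 v hv w hw
      calc a * v * (b * w) = a * (v * b) * w := by group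
        _ = a * b * (v * w) := by rw [h1]; group
        _ = b * a * (w * v) := by rw [h3, h4]
        _ = b * (a * w) * v := by group
        _ = b * w * (a * v) := by rw [← h2]; group
    · intro x hx
      obtain ⟨a, ha, v, hv, rfl⟩ := hdec x hx
      have h2 : Commute a v := (hcom v hv a ha.2).symm
      rw [h2.mul_pow, hEA.2 a ha.1, hEV.2 v hv, one_mul]
  have hcard := hmax _ hBP hEB
  have hprod := card_sup_mul (A ⊓ U) V
  have hle : A ⊓ U ⊓ V ≤ V ⊓ Subgroup.centralizer (A : Set G) := by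
    intro x hx
    refine Subgroup.mem_inf.mpr ⟨hx.2, Subgroup.mem_centralizer_iff.mpr ?_⟩
    intro y hy
    exact hEA.1 y hy x hx.1.1
  have hle' : Nat.card (A ⊓ U ⊓ V : Subgroup G) ≤
      Nat.card (V ⊓ Subgroup.centralizer (A : Set G) : Subgroup G) :=
    Subgroup.card_le_of_le hle
  calc Nat.card V * Nat.card (A ⊓ U : Subgroup G)
      = Nat.card (A ⊓ U : Subgroup G) * Nat.card V := mul_comm _ _
    _ = Nat.card ((A ⊓ U) ⊔ V : Subgroup G) * Nat.card (A ⊓ U ⊓ V : Subgroup G) := hprod.symm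
    _ ≤ _ := Nat.mul_le_mul hcard hle'

end Pool.Agent.helper6.TH
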